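import Pool.Agent.Helper53.UR.Tree

/-!
# PROJECT UR (MP_c578c8_lc), packet UR-KND: the kinds of the nodes.
-/

set_option autoImplicit false

namespace Pool.Agent.Helper66.UR

open Pool.Agent.Helper65.LinSpace (ifz)
open Pool.Agent.Helper53.UR

theorem kd_eq (e d p : ℕ) : kd e d p = if d = 0 then 0 else if p / 2 ^ (d - 1) = 0 then 1 else
    if d - 1 = 0 then 2 else if p / 2 ^ (d - 2) % 2 = 0 then 1 else
      if e + 2 - d = 0 then 4 else 3 := rfl

theorem gKND : GoalKND := by
  intro e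
  refine ⟨fun p => ?_, ?_, ?_, ?_, ?_, ?_⟩
  · rw [kd_eq, if_pos rfl]
  · rw [kd_eq]
    simp
  · rw [kd_eq]
    simp
  · rw [kd_eq]
    simp
  · intro d p hd hp h
    obtain ⟨d, rfl⟩ := Nat.exists_eq_add_of_le' hd
    rw [kd_eq] at h ⊢
    have e1 : 2 * p / 2 ^ (d + 1 + 1 - 1) = p / 2 ^ (d + 1 - 1) := by
      rw [show d + 1 + 1 - 1 = d + 1 from rfl, show d + 1 - 1 = d from rfl, pow_succ, mul_comm (2 ^ d) 2,
        Nat.mul_div_mul_left _ _ (by norm_num)]
    rw [e1]
    rw [if_neg (by omega)] at h ⊢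
    by_cases h1 : p / 2 ^ (d + 1 - 1) = 0
    · rw [if_pos h1]
    · rw [if_neg h1] at h ⊢
      rw [if_neg (by omega)]
      cases d with
      | zero => simp at h
      | succ d =>
        rw [if_neg (by omega)] at h
        have e2 : 2 * p / 2 ^ (d + 1 + 1 + 1 - 2) = p / 2 ^ (d + 1 + 1 - 2) := by
          rw [show d + 1 + 1 + 1 - 2 = d + 1 from rfl, show d + 1 + 1 - 2 = d from rfl, pow_succ,
            mul_comm (2 ^ d) 2, Nat.mul_div_mul_left _ _ (by norm_num)]
        rw [e2]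
        by_cases h2 : p / 2 ^ (d + 1 + 1 - 2) % 2 = 0
        · rw [if_pos h2]
        · rw [if_neg h2] at h
          split_ifs at h <;> omega
  · intro d p hd h
    obtain ⟨d, rfl⟩ := Nat.exists_eq_add_of_le' hd
    have h0 : d + 2 - 2 = d := rfl
    rw [h0] at h
    have h1 : p / 2 ^ (d + 2 - 1) = 1 := by
      rw [show d + 2 - 1 = d + 1 from rfl, pow_succ, ← Nat.div_div_eq_div_mul, h]
    rw [kd_eq, h1, h0, h]
    rw [if_neg (by omega), if_neg (by omega), if_neg (by omega), if_neg (by omega)]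
    split_ifs <;> omega

end Pool.Agent.Helper66.UR
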