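import Pool.Agent.Helper53.UR.Hub

/-!
# PROJECT UR (MP_c578c8_lc), packet UR-HUB: the hard language
-/

set_option autoImplicit false

namespace Pool.Agent.Helper66.UR

open Pool.Agent.Helper65.LinSpace Pool.Agent.Helper78.Mpc
open Pool.Agent.Helper1.TE (USPACE)
open Pool.Agent.Helper81.Gen4 (Q)
open Pool.Agent.Helper31.Gen5 (Hard)
open Pool.Agent.Helper31.OL (OL)
open Pool.Agent.Helper31.MHS (drp ls_drp q_take)
open Pool.Agent.Helper92.KR (Coded Coded.even Coded.odd par)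
open Pool.Agent.Helper53.UR

/-- the parameters of the questions -/
def pmc (c : ℕ) (z : Qn) : Qn :=
  (z.1 / 2, z.2.1, ifz (z.1 % 2) z.2.2.1 (drp (3 * c) z.2.1 z.2.2.1), z.2.2.2)

theorem ls_pmc (c : ℕ) : LS (pmc c) := by
  have h1 : LS (fun z : ℕ × ℕ × ℕ × ℕ => ifz (z.1 % 2) z.2.2.1 (drp (3 * c) z.2.1 z.2.2.1)) :=
    LS.ifz (by fun_prop) (by fun_prop)
      (LS.comp (g := fun z : ℕ × ℕ => drp (3 * c) z.1 z.2)
        (f := fun z : ℕ × ℕ × ℕ × ℕ => (z.2.1, z.2.2.1)) (ls_drp (3 * c)) (by fun_prop))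
  unfold pmc
  fun_prop

theorem gHUB : GoalHUB := by
  intro hq hN ho c hc
  obtain ⟨F, hF, h2⟩ := hq (par accU c) NFU hN c c hc
  obtain ⟨h3, h4⟩ := ho (pmc c) (ls_pmc c) F hF
  refine ⟨{w | F (num w) ≠ 0}, h3, h4, fun Acc Good h => ⟨?_, h2 Acc Good (h.even c)⟩⟩
  exact (h2 _ _ (h.odd c)).mono (fun w α h => (q_take c w α fun y => Acc w y).1 h)
    (fun w α h => (q_take c w α fun y => Good w y).2 h)

end Pool.Agent.Helper66.UR
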